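import Mathlib
import Pool.Agent.H82.Zyg.Defs
import Pool.Agent.H82.Zyg.Final

/-!
# MP_425ce8_an, Q1: the interpolation sets for the analytic Zygmund class

The definitions used in the statement are in `Pool/Agent/H82/Zyg/Defs.lean`.

Outline of the proof. Necessity: by Baire's theorem the interpolation has uniform bounds, and explicit
test functions give the three point condition; the condition (K) follows by pairing with suitable
powers of analytic kernels. Sufficiency: one passes to finite subsets of the open disc with uniform
constants. The three point condition says that the divided differences of the data are Lipschitz
for a hyperbolic type distance of locations, hence extend to a field of slopes; an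
inf-convolution gives a function with these slopes. The condition (K) gives a holomorphic
weight comparable to a power of the distance to `X`, with which a weighted Bergman projection
of that function has controlled second derivative and almost the right values; the error is removed by
Blaschke type products at the interior points.
-/

namespace Pool.Agent.Results.MP_425ce8_an.InterpolationSets

open Metric Set Pool.Agent.H82.Zyg

/-- **Interpolation sets for the analytic Zygmund class.** A closed subset `X` of the closed unit
disc is an interpolation set for `Λ_*` if and only if it satisfies the condition (K) and the three
point condition. A closed subset of the unit circle is an interpolation set for `Λ_*` if and only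
if it satisfies (K). -/
theorem result (X : Set ℂ) (hX : IsClosed X) (hXD : X ⊆ closedBall 0 1) :
    (IsInterp X ↔ (∃ c > 0, KCond c X) ∧ ∃ C, TCond C X) ∧
      (X ⊆ sphere 0 1 → (IsInterp X ↔ ∃ c > 0, KCond c X)) :=
  ⟨isInterp_iff hX hXD, fun h => isInterp_iff_of_sphere hX h⟩

end Pool.Agent.Results.MP_425ce8_an.InterpolationSets
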